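import Pool.Agent.P.MP_4ef411_nt.Al.St
import Pool.Agent.P.MP_746f10_nt.LP.Ind
import Pool.Agent.P.MP_746f10_nt.LP.Den
import Pool.Agent.P.MP_746f10_nt.LP.Blk
import Pool.Agent.P.MP_746f10_nt.LP.Fin

/-!
Large prime factors of systems of affine forms at every scale, from the independence of the values
along the forms at every scale.
-/

open Finset Filter Topology

namespace Pool.Agent.P.MP_746f10_nt.LA

open Pool.Agent.P.MP_746f10_nt.LP
open Pool.Agent.P.MP_746f10_nt.LP.IndP (G sg ucm_sg tr_sg)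
open Pool.Agent.P.MP_4ef411_nt.Al (S_GA)

/-- the target -/
def S_FA : Prop := ∀ (k : ℕ) (a b : Fin k → ℕ), (∀ i, 0 < a i) →
  (∀ i j, i ≠ j → a i * b j ≠ a j * b i) → ∀ W : ℕ, 0 < W → ∀ δ : ℝ, 0 < δ → δ < 1 / 2 →
  Tendsto (fun N : ℕ =>
      (Set.ncard {n : ℕ | 1 ≤ n ∧ n ≤ N ∧ ∀ i, Nat.Coprime (a i * n + b i) W ∧
          ∃ p : ℕ, p.Prime ∧ p ∣ a i * n + b i ∧ (N : ℝ) ^ (1 - δ) < p} : ℝ) / N) atTop
    (𝓝 ((Set.ncard {c : ℕ | c < W ∧ ∀ i, Nat.Coprime (a i * c + b i) W} : ℝ) / W *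
      (-Real.log (1 - δ)) ^ k))

theorem sg_mem (y : ℝ) (n : ℕ) : sg y n ∈ ({1, -1} : Finset ℂ) := by
  rw [sg, mem_insert, mem_singleton]
  exact neg_one_pow_eq_or ℂ _

/-- independence of the events at every scale -/
theorem ind (h : S_GA) {k : ℕ} {a b : Fin k → ℕ} (ha : ∀ i, 0 < a i)
    (hab : ∀ i j, i ≠ j → a i * b j ≠ a j * b i) {η ε : ℝ} (hη : 0 < η) (hε : 0 < ε) :
    ∀ᶠ N : ℕ in atTop, ∀ y : ℝ, (N : ℝ) ^ η ≤ y → (N : ℝ) ≤ y ^ 2 →
      (∀ i, ((a i * N + b i : ℕ) : ℝ) ≤ y ^ 2) → |dens a b y N - den1 y N ^ k| ≤ ε := by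
  have hK : (0 : ℝ) < 2 ^ k := by positivity
  filter_upwards [h k a b η (ε / 2 ^ k) {1, -1} ha hab hη (by positivity), eventually_ge_atTop 1]
    with N hN hN1 y hy h1 h2
  have hy0 : 0 ≤ y := le_trans (by positivity) hy
  refine (IndP.key ha hy0 hN1 h1 h2).trans ?_
  refine (sum_le_card_nsmul _ _ (ε / 2 ^ k) fun s _ => hN (fun i => G y (s i)) fun i => ?_).trans
    (le_of_eq ?_)
  · cases s i
    · exact ⟨ucm_one, tr_one _, fun _ => mem_insert_self _ _⟩
    · exact ⟨ucm_sg y, (tr_sg y).mono hy, sg_mem y⟩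
  · rw [card_univ, Fintype.card_fun, Fintype.card_bool, Fintype.card_fin, nsmul_eq_mul]
    push_cast
    field_simp

/-- the density of one event -/
theorem one {δ lam ε : ℝ} (h0 : 0 < δ) (h1 : δ < 1 / 2) (hlam : 1 ≤ lam) (hε : 0 < ε) :
    ∀ᶠ N : ℕ in atTop, ∀ y : ℝ, (N : ℝ) ^ (1 - δ) ≤ y → y ≤ (lam * N) ^ (1 - δ) →
      |den1 y N - -Real.log (1 - δ)| ≤ ε := by
  obtain ⟨C, hC, hD⟩ := den
  have hlog : Tendsto (fun X : ℕ => Real.log X) atTop atTop :=
    Real.tendsto_log_atTop.comp tendsto_natCast_atTop_atTop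
  have hl : 0 ≤ Real.log lam := Real.log_nonneg hlam
  filter_upwards [hlog.eventually_ge_atTop ((2 * C + Real.log lam) / ε),
    hlog.eventually_ge_atTop (Real.log lam / δ), hlog.eventually_ge_atTop 2,
    eventually_ge_atTop 1] with N hL hL1 hL2 hN1 y hy hy'
  have hN0 : (0 : ℝ) < N := by exact_mod_cast hN1
  have hδ : 0 < 1 - δ := by linarith
  have hy0 : 0 < y := lt_of_lt_of_le (by positivity) hy
  set L := Real.log N with hLd
  set l := Real.log lam with hld
  have hL0 : 0 < L := by linarith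
  have a1 : (1 - δ) * L ≤ Real.log y := by
    rw [hLd, ← Real.log_rpow hN0]
    exact Real.log_le_log (by positivity) hy
  have a2 : Real.log y ≤ (1 - δ) * (l + L) := by
    rw [hLd, hld, ← Real.log_mul (by positivity) hN0.ne', ← Real.log_rpow (by positivity)]
    exact Real.log_le_log hy0 hy'
  rw [div_le_iff₀' h0] at hL1
  rw [div_le_iff₀' hε] at hL
  have a3 : L / 2 ≤ Real.log y := by nlinarith
  have hly : 0 < Real.log y := by linarith
  have e2 : 2 ≤ y := by
    have := Real.log_le_sub_one_of_pos hy0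
    linarith
  have e3 : y ≤ N := by
    rw [← Real.log_le_log_iff hy0 hN0]
    nlinarith
  have e4 : (N : ℝ) ≤ y ^ 2 := by
    rw [← Real.log_le_log_iff hN0 (by positivity), Real.log_pow]
    push_cast
    linarith
  have h5 := hD y N e2 e3 e4
  have h6 : C / Real.log y ≤ 2 * C / L := by
    rw [div_le_div_iff₀ hly hL0]
    nlinarith
  have e5 : Real.log (L / Real.log y) =
      Real.log ((1 - δ) * L / Real.log y) + -Real.log (1 - δ) := by
    rw [mul_div_assoc, Real.log_mul hδ.ne' (by positivity)]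
    ring
  have h7 : Real.log ((1 - δ) * L / Real.log y) ≤ 0 :=
    Real.log_nonpos (by positivity) ((div_le_one hly).2 a1)
  have h8 : -Real.log ((1 - δ) * L / Real.log y) ≤ l / L := by
    rw [← Real.log_inv, inv_div]
    refine (Real.log_le_sub_one_of_pos (by positivity)).trans ?_
    rw [sub_le_iff_le_add, div_add_one hL0.ne', div_le_div_iff₀ (by positivity) hL0]
    nlinarith
  have h9 : 2 * C / L + l / L ≤ ε := by
    rw [← add_div, div_le_iff₀ hL0]
    exact hL
  have h10 : 0 ≤ l / L := by positivity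
  rw [e5] at h5
  rw [abs_le] at h5 ⊢
  constructor <;> linarith [h5.1, h5.2]

/-- the joint density, for thresholds near N ^ (1 - δ) -/
theorem blk (h : S_GA) {k : ℕ} {a b : Fin k → ℕ} (ha : ∀ i, 0 < a i)
    (hab : ∀ i j, i ≠ j → a i * b j ≠ a j * b i) {δ lam ε : ℝ} (h0 : 0 < δ) (h1 : δ < 1 / 2)
    (hlam : 1 ≤ lam) (hε : 0 < ε) :
    ∀ᶠ N : ℕ in atTop, ∀ y : ℝ, (N : ℝ) ^ (1 - δ) ≤ y → y ≤ (lam * N) ^ (1 - δ) →
      |dens a b y N - (-Real.log (1 - δ)) ^ k| ≤ ε := by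
  set S : ℝ := 1 + ∑ i, ((a i : ℝ) + b i) with hS
  have hS0 : 0 ≤ ∑ i, ((a i : ℝ) + b i) := sum_nonneg fun i _ => by positivity
  have hSi : ∀ i, (a i : ℝ) + b i ≤ S := fun i => by
    have := single_le_sum (f := fun i => (a i : ℝ) + b i) (fun i _ => by positivity) (mem_univ i)
    linarith
  have hp : Tendsto (fun N : ℕ => (N : ℝ) ^ (1 - 2 * δ)) atTop atTop :=
    (tendsto_rpow_atTop (by linarith)).comp tendsto_natCast_atTop_atTop
  filter_upwards [ind h ha hab (η := 1 - δ) (by linarith) (half_pos hε),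
    one (ε := ε / 2 / (k + 1)) h0 h1 hlam (by positivity), hp.eventually_ge_atTop S,
    eventually_ge_atTop 1] with N hN hO hS' hN1 y hy hy'
  have hN0 : (0 : ℝ) < N := by exact_mod_cast hN1
  have n1 : (1 : ℝ) ≤ N := by exact_mod_cast hN1
  have hb : S * N ≤ y ^ 2 := by
    refine le_trans ?_ (pow_le_pow_left₀ (by positivity) hy 2)
    have e : ((N : ℝ) ^ (1 - δ)) ^ 2 = (N : ℝ) ^ (1 - 2 * δ) * N := by
      rw [sq, ← Real.rpow_add hN0, ← Real.rpow_add_one hN0.ne']
      congr 1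
      ring
    rw [e]
    exact mul_le_mul_of_nonneg_right hS' hN0.le
  have c1 := hN y hy (by nlinarith) fun i => by
    have al : (0 : ℝ) ≤ a i := Nat.cast_nonneg _
    have bl : (0 : ℝ) ≤ b i := Nat.cast_nonneg _
    refine le_trans ?_ hb
    push_cast
    nlinarith [hSi i]
  have c2 := (BlkP.pow_sub (BlkP.den1_mem y N) (BlkP.rho_mem h0 h1) k).trans
    (mul_le_mul_of_nonneg_right (hO y hy hy') (Nat.cast_nonneg _))
  have c3 : ε / 2 / (k + 1) * k ≤ ε / 2 := by
    rw [div_mul_eq_mul_div, div_le_iff₀ (by positivity)]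
    nlinarith
  linarith [abs_sub_le (dens a b y N) (den1 y N ^ k) ((-Real.log (1 - δ)) ^ k)]

open Classical in
theorem fin (h : S_GA) : S_FA := by
  intro k a b ha hab W hW δ hδ hδ'
  set ρ : ℝ := (-Real.log (1 - δ)) ^ k with hρ
  have r0 : 0 ≤ ρ := pow_nonneg (BlkP.rho_mem hδ hδ').1 _
  have r1 : ρ ≤ 1 := pow_le_one₀ (BlkP.rho_mem hδ hδ').1 (BlkP.rho_mem hδ hδ').2
  set C : Finset ℕ := (range W).filter fun c => ∀ i, Nat.Coprime (a i * c + b i) W with hC
  have hCW : C.card ≤ W := (card_filter_le _ _).trans (card_range W).le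
  have eC : Set.ncard {c : ℕ | c < W ∧ ∀ i, Nat.Coprime (a i * c + b i) W} = C.card := by
    rw [← Set.ncard_coe_finset]
    congr 1
    ext c
    simp [hC]
  have hW' : (0 : ℝ) < W := by exact_mod_cast hW
  have hW1 : (1 : ℝ) ≤ W := by exact_mod_cast hW
  have key : ∀ N : ℕ, 1 ≤ N → (1 / (N : ℝ)) *
      |(Set.ncard {n : ℕ | 1 ≤ n ∧ n ≤ N ∧ ∀ i, Nat.Coprime (a i * n + b i) W ∧
          ∃ p : ℕ, p.Prime ∧ p ∣ a i * n + b i ∧ (N : ℝ) ^ (1 - δ) < p} : ℝ) / N -
        (C.card : ℝ) / W * ρ| ≤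
      2 * W * ((1 / (N : ℝ)) * (1 / (N : ℝ))) + ∑ c ∈ C, (1 / ((N / W : ℕ) : ℝ)) *
        |dens (fun i => a i * W) (fun i => a i * c + b i) ((N : ℝ) ^ (1 - δ)) (N / W) - ρ| := by
    intro N hN
    let P : ℕ → Prop := fun n => ∀ i, Nat.Coprime (a i * n + b i) W ∧
      big ((N : ℝ) ^ (1 - δ)) (a i * n + b i)
    have eA : Set.ncard {n : ℕ | 1 ≤ n ∧ n ≤ N ∧ ∀ i, Nat.Coprime (a i * n + b i) W ∧
          ∃ p : ℕ, p.Prime ∧ p ∣ a i * n + b i ∧ (N : ℝ) ^ (1 - δ) < p} =
        ((Icc 1 N).filter P).card := by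
      rw [← Set.ncard_coe_finset]
      congr 1
      ext n
      rw [mem_coe, mem_filter, mem_Icc, and_assoc]
      exact Iff.rfl
    rw [eA]
    refine FinP.term_le hW hN hCW r0 r1 ?_
    have h1 := FinP.card_near P hW N
    rw [FinP.card_per P hW] at h1
    refine le_trans (le_of_eq ?_) h1
    congr 2
    rw [Nat.cast_sum, hC, sum_filter]
    refine sum_congr rfl fun c _ => ?_
    have e : ∀ i m, a i * (W * m + c) + b i = a i * W * m + (a i * c + b i) := fun i m => by ring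
    have e' : ∀ i m, Nat.Coprime (a i * (W * m + c) + b i) W ↔ Nat.Coprime (a i * c + b i) W :=
      fun i m => by
        rw [show a i * (W * m + c) + b i = a i * c + b i + a i * m * W by ring,
          Nat.coprime_add_mul_right_left]
    split_ifs with hc
    · rw [FinP.mul_dens]
      congr 2
      ext m
      simp only [P, mem_filter, e']
      simp only [e]
      exact and_congr_right fun _ => forall_congr' fun i => (and_iff_right (hc i)).symm
    · symm
      rw [Nat.cast_eq_zero, card_eq_zero, filter_eq_empty_iff]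
      exact fun m _ hm => hc fun i => (e' i m).1 (hm i).1
  rw [eC, Metric.tendsto_nhds]
  intro ε hε
  have hε' : 0 < ε / (8 * W ^ 2) := by positivity
  have hq : Tendsto (fun N : ℕ => N / W) atTop atTop := Nat.tendsto_div_const_atTop hW.ne'
  have ev : ∀ᶠ M : ℕ in atTop, ∀ c ∈ C, ∀ y : ℝ, (M : ℝ) ^ (1 - δ) ≤ y →
      y ≤ (2 * W * M) ^ (1 - δ) →
      |dens (fun i => a i * W) (fun i => a i * c + b i) y M - ρ| ≤ ε / (8 * W ^ 2) := by
    refine (eventually_all_finset _).2 fun c _ => blk h (fun i => Nat.mul_pos (ha i) hW) ?_ hδ hδ'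
      (by linarith) hε'
    intro i j hij e
    refine hab i j hij (Nat.eq_of_mul_eq_mul_left hW ?_)
    have e1 : a i * W * (a j * c + b j) = W * (a i * b j) + a i * a j * c * W := by ring
    have e2 : a j * W * (a i * c + b i) = W * (a j * b i) + a i * a j * c * W := by ring
    rw [e1, e2] at e
    exact Nat.add_right_cancel e
  have ev2 : ∀ᶠ N : ℕ in atTop, 8 * W / ε ≤ (N : ℝ) :=
    tendsto_natCast_atTop_atTop.eventually_ge_atTop _
  filter_upwards [hq.eventually ev, hq.eventually_ge_atTop 1, ev2, eventually_ge_atTop 1]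
    with N hN hM1 hN2 hN1
  have hN0 : (0 : ℝ) < N := by exact_mod_cast hN1
  have e := Nat.div_add_mod N W
  have hr := Nat.mod_lt N hW
  have k1 := key N hN1
  have hMN : N / W ≤ N := Nat.div_le_self _ _
  generalize N / W = M at *
  have hM0 : (0 : ℝ) < M := by exact_mod_cast hM1
  have hNM : (N : ℝ) ≤ 2 * W * M := by exact_mod_cast (by nlinarith : N ≤ 2 * W * M)
  have b1 : ∑ c ∈ C, (1 / (M : ℝ)) *
      |dens (fun i => a i * W) (fun i => a i * c + b i) ((N : ℝ) ^ (1 - δ)) M - ρ| ≤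
      W * (1 / (M : ℝ) * (ε / (8 * W ^ 2))) := by
    refine (sum_le_card_nsmul _ _ _ fun c hc => mul_le_mul_of_nonneg_left (hN c hc _ ?_ ?_)
      (by positivity)).trans ?_
    · exact Real.rpow_le_rpow (by positivity) (by exact_mod_cast hMN) (by linarith)
    · exact Real.rpow_le_rpow (by positivity) hNM (by linarith)
    · rw [nsmul_eq_mul]
      exact mul_le_mul_of_nonneg_right (by exact_mod_cast hCW) (by positivity)
  have b2 : W * (1 / (M : ℝ) * (ε / (8 * W ^ 2))) ≤ 1 / (N : ℝ) * (ε / 4) := by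
    have e1 : W * (1 / (M : ℝ) * (ε / (8 * W ^ 2))) = 1 / (2 * W * M : ℝ) * (ε / 4) := by
      field_simp
      ring
    rw [e1]
    exact mul_le_mul_of_nonneg_right (one_div_le_one_div_of_le hN0 hNM) (by positivity)
  have b3 : 2 * W * ((1 / (N : ℝ)) * (1 / (N : ℝ))) ≤ 1 / (N : ℝ) * (ε / 4) := by
    have e1 : 2 * W * ((1 / (N : ℝ)) * (1 / (N : ℝ))) = 1 / (N : ℝ) * (2 * W / N) := by ring
    rw [e1]
    refine mul_le_mul_of_nonneg_left ?_ (by positivity)
    rw [div_le_iff₀' hε] at hN2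
    rw [div_le_iff₀ hN0]
    linarith
  have b4 := k1.trans (add_le_add b3 (b1.trans b2))
  rw [← mul_add] at b4
  have b5 := le_of_mul_le_mul_left b4 (by positivity)
  rw [Real.dist_eq]
  linarith

end Pool.Agent.P.MP_746f10_nt.LA
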